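import Mathlib
import Pool.Agent.Q15.FE.Fin

/-!
# The first case of the Fermat-Catalan equation for one hundred per cent of the bases

For 100% of the positive integers `b` (natural density) no power `b ^ n`, `n ≥ 2`, is a sum or a difference
of two coprime powers `a ^ m`, `c ^ k` the exponents of which have a common divisor `d ≥ 3` prime to `b`.

New: the differences with an even exponent `n` (and the sums, which come from `SumsOfPowers`).  If the odd
prime `p` divides `m` and `k` and not `b`, and `n` is even, then `b = b₁ b₂`, where `p` is a square modulo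
every prime divisor of `b₁`, and the primes of `b₂` are `≡ 1` modulo `p`; so all prime divisors of `b` lie in a
set of density at most `3 / 4`, and there are at most `O (N / (log N) ^ (1 / 4))` such `b ≤ N` for a fixed `p`.
For large `p` a typical `b` has two large prime divisors, both of which would be `≡ 1` modulo `p`.
-/

set_option autoImplicit false

namespace Pool.Agent.Results.MP_2738db_nt.FirstCaseAlmostAllBases

/-- a power `b ^ n`, `n ≥ 2`, is a sum or a difference of powers `a ^ m`, `c ^ k` of coprime positive
integers, where `m` and `k` have a common divisor `d ≥ 3` prime to `b` -/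
def FirstCaseBase (b : ℕ) : Prop :=
  ∃ a c m n k d : ℕ, 0 < a ∧ 0 < c ∧ Nat.Coprime a c ∧ 2 ≤ n ∧
    3 ≤ d ∧ d ∣ m ∧ d ∣ k ∧ Nat.Coprime d b ∧ (a ^ m + b ^ n = c ^ k ∨ a ^ m + c ^ k = b ^ n)

theorem result : ∀ ε : ℝ, 0 < ε → ∃ N₀ : ℕ, ∀ N : ℕ, N₀ ≤ N →
    (({b : ℕ | 0 < b ∧ b ≤ N ∧ FirstCaseBase b}.ncard : ℕ) : ℝ) ≤ ε * N := by
  intro ε hε
  exact Pool.Agent.Q15.FE.final3 hε

end Pool.Agent.Results.MP_2738db_nt.FirstCaseAlmostAllBases
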