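import Mathlib
import Pool.Agent.H326R2.ULevel
import Pool.Agent.H326R2.TabU

/-!
# `a ^ m + b ^ n = c ^ k` with `2 s ∣ m`, `2 s ∣ n`, `p ∣ k`: first case theorems

In the style of Sophie Germain.  Let `s ≥ 5` be a prime such that `2 s + 1` is a prime, and let `p`
be odd, not `0, 1` modulo `s` and not `0, 1, -1` modulo `2 s + 1`.  If `m` and `n` are multiples
of `2 s` and `k` is a multiple of `p`, then `a ^ m + b ^ n = c ^ k` has no solution in coprime `a, b`
which are prime to `p`.  The same is true for all primes `s ≠ p` from `5` to `97` with `p ≢ 1`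
modulo `s`.
-/

namespace Pool.Agent.Results.MP_2738db_nt.FirstCaseEvenSum

open Pool.Agent.H326R2

lemma key {s p t : ℕ} (hs : Odd s) (hp : Odd p) (ht : t.Prime) (haux : AuxU s p t)
    {m n k : ℕ} (hm : 2 * s ∣ m) (hn : 2 * s ∣ n) (hk : p ∣ k) {a b c : ℕ}
    (hab : Nat.Coprime a b) (hp' : Nat.Coprime (a * b) p) : a ^ m + b ^ n ≠ c ^ k := by
  intro h
  obtain ⟨m', rfl⟩ := hm
  obtain ⟨n', rfl⟩ := hn
  obtain ⟨k', rfl⟩ := hk
  have ha : Nat.Coprime a p := Nat.Coprime.coprime_mul_right hp'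
  have hb : Nat.Coprime b p := Nat.Coprime.coprime_mul_left hp'
  refine main_u s p t hs hp ht haux ((a ^ m' : ℕ) : ℤ) ((b ^ n' : ℕ) : ℤ) ((c ^ k' : ℕ) : ℤ)
    (Nat.isCoprime_iff_coprime.2 (ha.pow_left _)) (Nat.isCoprime_iff_coprime.2 (hb.pow_left _))
    (Nat.isCoprime_iff_coprime.2 (hab.pow _ _)) ?_
  have h2 : ((a ^ m') ^ s) ^ 2 + ((b ^ n') ^ s) ^ 2 = (c ^ k') ^ p := by
    rw [← pow_mul, ← pow_mul, ← pow_mul, ← pow_mul, ← pow_mul,
      show m' * (s * 2) = 2 * s * m' by ring, show n' * (s * 2) = 2 * s * n' by ring,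
      show k' * p = p * k' by ring]
    exact h
  exact_mod_cast h2

/-- **First case theorems for `a ^ m + b ^ n = c ^ k` with `2 s ∣ m`, `2 s ∣ n`, `p ∣ k`.** -/
theorem result :
    (∀ s p m n k : ℕ, s.Prime → (2 * s + 1).Prime → 5 ≤ s → Odd p →
      p % s ≠ 0 → p % s ≠ 1 →
      p % (2 * s + 1) ≠ 0 → p % (2 * s + 1) ≠ 1 → p % (2 * s + 1) ≠ 2 * s →
      2 * s ∣ m → 2 * s ∣ n → p ∣ k →
      ∀ a b c : ℕ, Nat.Coprime a b → Nat.Coprime (a * b) p → a ^ m + b ^ n ≠ c ^ k) ∧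
    (∀ s p m n k : ℕ, s.Prime → p.Prime → 5 ≤ s → 5 ≤ p → s < 100 → p < 100 → s ≠ p →
      p % s ≠ 1 → 2 * s ∣ m → 2 * s ∣ n → p ∣ k →
      ∀ a b c : ℕ, Nat.Coprime a b → Nat.Coprime (a * b) p → a ^ m + b ^ n ≠ c ^ k) := by
  constructor
  · intro s p m n k hs ht hs5 hp h0 h1 k0 k1 k2 hm hn hk a b c hab hp'
    have hcast : ∀ (N q r : ℕ), r < N → q % N ≠ r → (q : ZMod N) ≠ (r : ZMod N) := by
      intro N q r hr hq h
      rw [ZMod.natCast_eq_natCast_iff'] at h
      rw [Nat.mod_eq_of_lt hr] at h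
      exact hq h
    have e0 : (p : ZMod s) ≠ 0 := by
      have := hcast s p 0 (by omega) h0
      simpa using this
    have e1 : (p : ZMod s) ≠ 1 := by
      have := hcast s p 1 (by omega) h1
      simpa using this
    have f0 : (p : ZMod (2 * s + 1)) ≠ 0 := by
      have := hcast (2 * s + 1) p 0 (by omega) k0
      simpa using this
    have f1 : (p : ZMod (2 * s + 1)) ≠ 1 := by
      have := hcast (2 * s + 1) p 1 (by omega) k1
      simpa using this
    have f2 : (p : ZMod (2 * s + 1)) ≠ -1 := by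
      have := hcast (2 * s + 1) p (2 * s) (by omega) k2
      intro h
      apply this
      rw [h]
      have h3 : ((2 * s + 1 : ℕ) : ZMod (2 * s + 1)) = 0 := ZMod.natCast_self _
      rw [Nat.cast_add, Nat.cast_one] at h3
      exact (eq_neg_of_add_eq_zero_left h3).symm
    have haux := auxU_sg s p hs hs5 ht hp e0 e1 f0 f1 f2
    exact key (hs.odd_of_ne_two (by omega)) hp ht haux hm hn hk hab hp'
  · intro s p m n k hs hp hs5 hp5 hs100 hp100 hne h1 hm hn hk a b c hab hp'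
    have hexc : (s, p) ∉ [((5 : ℕ), (11 : ℕ)), (5, 31), (5, 41), (5, 61), (5, 71), (7, 29), (7, 43),
        (7, 71), (11, 23), (11, 67), (11, 89), (13, 53), (13, 79), (23, 47), (29, 59),
        (41, 83)] := by
      intro hmem
      simp only [List.mem_cons, Prod.mk.injEq, List.not_mem_nil, or_false] at hmem
      rcases hmem with h | h | h | h | h | h | h | h | h | h | h | h | h | h | h | h <;>
        obtain ⟨rfl, rfl⟩ := h <;> exact h1 (by norm_num)
    obtain ⟨t, P, ht, -, hs0, hP, hchk⟩ := tab_spec tabU_ok tabU_cov s p hs hp hs5 hp5 hs100 hp100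
      hne hexc
    exact key (hs.odd_of_ne_two (by omega)) (hp.odd_of_ne_two (by omega)) ht
      (chkU_sound hs0 ht P hP hchk) hm hn hk hab hp'

end Pool.Agent.Results.MP_2738db_nt.FirstCaseEvenSum
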