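import Mathlib
import Pool.Agent.Q15.SP.Fin

/-!
# The third base of `a ^ m + b ^ n = c ^ k` when `m` and `n` have a common factor

All three exponents and the bases `a`, `b` are free; the bases `c ≤ N` are counted.  Only
`O (N / √(log N))` of them belong to a solution with coprime `a`, `b` and `gcd (m, n) > 1`.  If `m` and
`n` are multiples of a common prime power `Q` with `φ (2 Q) ≥ M` (which is arbitrary and may vary with
the solution), the bound is `O (N / (log N) ^ (1 - 1 / M))`; if `gcd (m, n)` is large it is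
`O (N / (log N) ^ (1 - ε))`.

Method.  Let the odd prime `p` divide `m` and `n`, so that `c ^ k = x ^ p + y ^ p`.  Then `c = c₁ c₂`, where
`c₁ ^ k` is essentially `x + y`, and all primes of `c₂` are `≡ 1` modulo `p`.  As `x + y` and
`(x ^ p + y ^ p) ^ (1 / p)` differ at most by a factor `2`, `c₁` is in the window
`c ^ (1 / p) ≤ c₁ ≤ 2 p c ^ (1 / p)`, in which the sum of `1 / c₁` is `O (log p)`.  The numbers `c₂` are
counted with the von Mangoldt function.  For large `p` the Brun-Titchmarsh inequality gives the factor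
`(log p) ^ 2 / p`, and only `p ≤ 6 log N` can occur.
-/

set_option autoImplicit false

namespace Pool.Agent.Results.MP_2738db_nt.SumsOfPowers

/-- the positive integers `c ≤ N` for which there are coprime `a, b ≥ 1`, exponents `m, n` with the
property `R` and `k ≥ 1` such that `a ^ m + b ^ n = c ^ k` -/
def Bases (N : ℕ) (R : ℕ → ℕ → Prop) : Set ℕ :=
  {c | 0 < c ∧ c ≤ N ∧ ∃ a b m n k : ℕ, 0 < a ∧ 0 < b ∧ 0 < k ∧ Nat.Coprime a b ∧ R m n ∧
    a ^ m + b ^ n = c ^ k}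

theorem result :
    (∃ C : ℝ, ∀ N : ℕ, 3 ≤ N →
      ((Bases N fun m n => 1 < Nat.gcd m n).ncard : ℝ) ≤ C * (N / Real.sqrt (Real.log N))) ∧
    (∀ M : ℕ, 2 ≤ M → ∃ C : ℝ, ∀ N : ℕ, 3 ≤ N →
      ((Bases N fun m n => ∃ Q : ℕ, IsPrimePow Q ∧ M ≤ (2 * Q).totient ∧ Q ∣ m ∧ Q ∣ n).ncard : ℝ) ≤
        C * (N / Real.log N ^ (1 - 1 / (M : ℝ)))) ∧
    (∀ ε : ℝ, 0 < ε → ∃ (D : ℕ) (C : ℝ), ∀ N : ℕ, 3 ≤ N →
      ((Bases N fun m n => D < Nat.gcd m n).ncard : ℝ) ≤ C * (N / Real.log N ^ (1 - ε))) := by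
  refine ⟨Pool.Agent.Q15.SP.main_all, fun M hM => Pool.Agent.Q15.SP.main_pp hM, fun ε hε => ?_⟩
  obtain ⟨D, C, h⟩ := Pool.Agent.Q15.SP.main_large (M := ⌈1 / ε⌉₊ + 2) (by omega)
  refine ⟨D, max C 0, fun N hN => ?_⟩
  have h1 := Pool.Agent.Q15.SP.weaken (θ := 1 - 1 / ((⌈1 / ε⌉₊ + 2 : ℕ) : ℝ)) (θ' := 1 - ε) hN
    (le_max_right C 0) (by
      have h2 : 1 / ε ≤ ((⌈1 / ε⌉₊ + 2 : ℕ) : ℝ) := by
        refine (Nat.le_ceil (1 / ε)).trans ?_
        exact_mod_cast Nat.le_add_right _ _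
      have h3 : 1 / ((⌈1 / ε⌉₊ + 2 : ℕ) : ℝ) ≤ ε := by
        rw [div_le_iff₀ (by positivity)]
        rw [div_le_iff₀ hε] at h2
        linarith
      linarith)
  refine (h N hN).trans (le_trans ?_ h1)
  apply mul_le_mul_of_nonneg_right (le_max_left C 0)
  have := Pool.Agent.Q15.SP.log_ge_one hN
  have h4 : 0 < Real.log N := by linarith
  positivity

end Pool.Agent.Results.MP_2738db_nt.SumsOfPowers
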