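import Mathlib
import Pool.Agent.TH888.B1.PolyMain

/-!
The Fermat-Catalan equation with THREE polynomial bases, all exponents free: outside a thin periodic
set the exceptional arguments are polylogarithmically rare.

There is an absolute constant `κ` such that for all integer polynomials `f`, `g`, `h`, where `f` and `g`
are nonconstant and coprime over `ℚ`, and for every `ε > 0` there is a periodic set of integers of
density at least `1 - ε` in which at most `A (log N) ^ κ` integers `n ≤ N` have the property that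
`f(n)`, `g(n)`, `h(n)` are the three bases of a primitive solution `f(n) ^ l ± g(n) ^ m = ± h(n) ^ k`
with `1/l + 1/m + 1/k ≤ 1`. The three exponents are not bounded.
-/

set_option autoImplicit false

namespace Pool.Agent.Results.MP_2738db_nt.ThreePolynomialBases

open Polynomial

/-- `f n`, `g n`, `h n` are nonzero, `f n` and `g n` are coprime, and they satisfy the
Fermat-Catalan equation `(f n) ^ l + s (g n) ^ m = t (h n) ^ k` for some exponents `l`, `m`, `k ≥ 1`
with `1/l + 1/m + 1/k ≤ 1` and some signs `s`, `t`. -/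
def Exceptional (f g h : ℤ[X]) : Set ℕ :=
  {n | ∃ (l m k : ℕ) (s t : ℤ), 0 < l ∧ 0 < m ∧ 0 < k ∧
    m * k + k * l + l * m ≤ l * m * k ∧ (s = 1 ∨ s = -1) ∧ (t = 1 ∨ t = -1) ∧
    f.eval (n : ℤ) ≠ 0 ∧ g.eval (n : ℤ) ≠ 0 ∧ h.eval (n : ℤ) ≠ 0 ∧
    IsCoprime (f.eval (n : ℤ)) (g.eval (n : ℤ)) ∧
    f.eval (n : ℤ) ^ l + s * g.eval (n : ℤ) ^ m = t * h.eval (n : ℤ) ^ k}

/-- There is `κ` such that for all integer polynomials `f`, `g`, `h`, `f` and `g` nonconstant and coprime
over `ℚ`, and every `ε > 0` there are a modulus `M`, a set `G` of at least `(1 - ε) M` residue classes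
modulo `M` and a constant `A` such that for every `N ≥ 2` at most `A (log N) ^ κ` integers `1 ≤ n ≤ N` in
these classes are exceptional. -/
theorem result : ∃ κ : ℕ, ∀ f g h : ℤ[X], 0 < f.natDegree → 0 < g.natDegree →
    IsCoprime (f.map (Int.castRingHom ℚ)) (g.map (Int.castRingHom ℚ)) → ∀ ε : ℝ, 0 < ε →
    ∃ (M : ℕ) (G : Finset ℕ) (A : ℝ), 0 < M ∧ G ⊆ Finset.range M ∧
      (1 - ε) * M ≤ (G.card : ℝ) ∧
      ∀ N : ℕ, 2 ≤ N →
        (({n : ℕ | 1 ≤ n ∧ n ≤ N ∧ n % M ∈ G ∧ n ∈ Exceptional f g h}.ncard : ℝ)) ≤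
          A * Real.log N ^ κ :=
  Pool.Agent.TH888.B1.poly_main

end Pool.Agent.Results.MP_2738db_nt.ThreePolynomialBases
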